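import Mathlib

/-!
Jacobson's theorem for a set of nilpotent endomorphisms of a finite abelian group, closed under brackets.
-/

set_option autoImplicit false

namespace Pool.Agent.ZGO.H23

variable {W : Type} [AddCommGroup W]

/-- the descending series of a set of endomorphisms -/
def ser (S : Set (AddMonoid.End W)) : ℕ → AddSubgroup W
  | 0 => ⊤
  | k + 1 => AddSubgroup.closure {w | ∃ t ∈ S, ∃ v ∈ ser S k, w = t v}

theorem ser_zero (S : Set (AddMonoid.End W)) : ser S 0 = ⊤ := rfl

theorem ser_step {S : Set (AddMonoid.End W)} {k : ℕ} {t : AddMonoid.End W} (ht : t ∈ S) {v : W}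
    (hv : v ∈ ser S k) : t v ∈ ser S (k + 1) :=
  AddSubgroup.subset_closure ⟨t, ht, v, hv, rfl⟩

theorem ser_anti (S : Set (AddMonoid.End W)) (k : ℕ) : ser S (k + 1) ≤ ser S k := by
  induction k with
  | zero => exact le_top
  | succ k ih =>
    refine (AddSubgroup.closure_le _).2 ?_
    rintro w ⟨t, ht, v, hv, rfl⟩
    exact ser_step ht (ih hv)

theorem ser_anti' (S : Set (AddMonoid.End W)) {k l : ℕ} (h : k ≤ l) : ser S l ≤ ser S k := by
  induction h with
  | refl => exact le_rfl
  | step _ ih => exact (ser_anti S _).trans ih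

/-- products of elements of `S` -/
theorem ser_list {S : Set (AddMonoid.End W)} (l : List (AddMonoid.End W)) (hl : ∀ t ∈ l, t ∈ S)
    (k : ℕ) (v : W) (hv : v ∈ ser S k) : l.prod v ∈ ser S (k + l.length) := by
  induction l with
  | nil => simpa using hv
  | cons t l ih =>
    have h1 := ih (fun s hs => hl s (List.mem_cons_of_mem _ hs))
    have h2 : t (l.prod v) ∈ ser S (k + l.length + 1) := ser_step (hl t List.mem_cons_self) h1
    rw [List.prod_cons, List.length_cons]
    exact h2

/-- an endomorphism with brackets in `T` preserves the series -/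
theorem ser_stable {T : Set (AddMonoid.End W)} {y : AddMonoid.End W}
    (hy : ∀ t ∈ T, t * y - y * t ∈ T) (k : ℕ) : ∀ v ∈ ser T k, y v ∈ ser T k := by
  induction k with
  | zero => intro v _; exact AddSubgroup.mem_top _
  | succ k ih =>
    intro v hv
    refine AddSubgroup.closure_induction (p := fun v _ => y v ∈ ser T (k + 1)) ?_ ?_ ?_ ?_ hv
    · rintro w ⟨t, ht, u, hu, rfl⟩
      have e0 : (t * y - y * t) u = t (y u) - y (t u) := rfl
      have e : y (t u) = t (y u) - (t * y - y * t) u := by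
        rw [e0]; abel
      rw [e]
      exact AddSubgroup.sub_mem _ (ser_step ht (ih u hu)) (ser_step (hy t ht) hu)
    · simp
    · intro a b _ _ ha hb
      rw [map_add]; exact AddSubgroup.add_mem _ ha hb
    · intro a _ ha
      rw [map_neg]; exact AddSubgroup.neg_mem _ ha

/-- adding one nilpotent endomorphism -/
theorem ser_insert {T : Set (AddMonoid.End W)} {y : AddMonoid.End W} {n : ℕ}
    (hn : ser T n = ⊥) (hy : ∀ t ∈ T, t * y - y * t ∈ T) (hny : IsNilpotent y) :
    ∃ m, ser (insert y T) m = ⊥ := by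
  obtain ⟨m, hm⟩ := hny
  have hst := ser_stable hy
  have hpow : ∀ a k, ∀ v ∈ ser T k, (y ^ a) v ∈ ser T k := by
    intro a
    induction a with
    | zero => intro k v hv; simpa using hv
    | succ a ih =>
      intro k v hv
      rw [pow_succ']
      exact hst k _ (ih k v hv)
  -- key step
  have step : ∀ k l, ser (insert y T) l ≤ ser T k → ∀ a,
      ser (insert y T) (l + a) ≤ ser T (k + 1) ⊔ (ser T k).map (y ^ a) := by
    intro k l hkl a
    induction a with
    | zero =>
      intro v hv
      refine AddSubgroup.mem_sup_right ⟨v, hkl hv, ?_⟩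
      rw [pow_zero]; rfl
    | succ a ih =>
      refine (AddSubgroup.closure_le _).2 ?_
      rintro w ⟨t, ht, v, hv, rfl⟩
      have hv' := ih hv
      obtain ⟨v1, hv1, v2, ⟨u, hu, rfl⟩, rfl⟩ := AddSubgroup.mem_sup.1 hv'
      rcases ht with rfl | ht
      · rw [map_add]
        refine AddSubgroup.add_mem _ ?_ ?_
        · exact AddSubgroup.mem_sup_left (hst _ _ hv1)
        · refine AddSubgroup.mem_sup_right ⟨u, hu, ?_⟩
          rw [pow_succ']; rfl
      · rw [map_add]
        refine AddSubgroup.mem_sup_left (AddSubgroup.add_mem _ ?_ ?_)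
        · exact ser_anti T _ (ser_step ht hv1)
        · exact ser_step ht (hpow a k u hu)
  have main : ∀ k, ser (insert y T) (m * k) ≤ ser T k := by
    intro k
    induction k with
    | zero => exact le_top
    | succ k ih =>
      have h1 := step k (m * k) ih m
      rw [hm] at h1
      rw [Nat.mul_succ]
      refine h1.trans (sup_le le_rfl ?_)
      rintro _ ⟨u, _, rfl⟩
      exact AddSubgroup.zero_mem _
  refine ⟨m * n, ?_⟩
  have := main n
  rw [hn] at this
  exact le_bot_iff.1 this

/-- the span of the products with `i` factors in `T` and one factor `y` -/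
def mid (T : Set (AddMonoid.End W)) (y : AddMonoid.End W) (i : ℕ) : AddSubgroup (AddMonoid.End W) :=
  AddSubgroup.closure {z | ∃ l r : List (AddMonoid.End W), (∀ t ∈ l, t ∈ T) ∧ (∀ t ∈ r, t ∈ T) ∧
    l.length + r.length = i ∧ z = l.prod * y * r.prod}

theorem mid_zero (T : Set (AddMonoid.End W)) (y : AddMonoid.End W) : y ∈ mid T y 0 := by
  refine AddSubgroup.subset_closure ⟨[], [], by simp, by simp, rfl, by simp⟩

theorem mid_step {T : Set (AddMonoid.End W)} {y : AddMonoid.End W} {i : ℕ} {t : AddMonoid.End W}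
    (ht : t ∈ T) {z : AddMonoid.End W} (hz : z ∈ mid T y i) : t * z - z * t ∈ mid T y (i + 1) := by
  refine AddSubgroup.closure_induction (p := fun z _ => t * z - z * t ∈ mid T y (i + 1))
    ?_ ?_ ?_ ?_ hz
  · rintro z ⟨l, r, hl, hr, hi, rfl⟩
    refine AddSubgroup.sub_mem _ ?_ ?_
    · refine AddSubgroup.subset_closure ⟨t :: l, r, ?_, hr, ?_, ?_⟩
      · intro s hs
        rcases List.mem_cons.1 hs with rfl | hs
        · exact ht
        · exact hl s hs
      · simp only [List.length_cons]; omega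
      · rw [List.prod_cons]; simp only [mul_assoc]
    · refine AddSubgroup.subset_closure ⟨l, r ++ [t], hl, ?_, ?_, ?_⟩
      · intro s hs
        rcases List.mem_append.1 hs with hs | hs
        · exact hr s hs
        · rcases List.mem_singleton.1 hs with rfl
          exact ht
      · simp only [List.length_append, List.length_singleton]; omega
      · rw [List.prod_append, List.prod_singleton]; simp only [mul_assoc]
  · have e : t * (0 : AddMonoid.End W) - 0 * t = 0 := by rw [mul_zero, zero_mul, sub_zero]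
    rw [e]; exact AddSubgroup.zero_mem _
  · intro a b _ _ ha hb
    have e : t * (a + b) - (a + b) * t = (t * a - a * t) + (t * b - b * t) := by
      rw [mul_add, add_mul]; abel
    rw [e]; exact AddSubgroup.add_mem _ ha hb
  · intro a _ ha
    have e : t * (-a) - (-a) * t = -(t * a - a * t) := by
      rw [mul_neg, neg_mul]; abel
    rw [e]; exact AddSubgroup.neg_mem _ ha

theorem list_zero {T : Set (AddMonoid.End W)} {n : ℕ} (hn : ser T n = ⊥)
    (l : List (AddMonoid.End W)) (hl : ∀ t ∈ l, t ∈ T) (h : n ≤ l.length) : l.prod = 0 := by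
  ext v
  have h1 := ser_list l hl 0 v (AddSubgroup.mem_top v)
  rw [zero_add] at h1
  have h2 := ser_anti' T h h1
  rw [hn] at h2
  simpa using h2

theorem mid_end {T : Set (AddMonoid.End W)} {n : ℕ} (hn : ser T n = ⊥) (y : AddMonoid.End W) :
    mid T y (2 * n) = ⊥ := by
  refine le_bot_iff.1 ((AddSubgroup.closure_le _).2 ?_)
  rintro z ⟨l, r, hl, hr, hi, rfl⟩
  by_cases h : n ≤ l.length
  · rw [list_zero hn l hl h]; simp
  · rw [list_zero hn r hr (by omega)]; simp

/-- JACOBSON: a set of nilpotent endomorphisms of a finite abelian group which is closed under brackets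
generates a nilpotent ring. -/
theorem jacobson [Finite W] (S : Set (AddMonoid.End W))
    (hS : ∀ t ∈ S, ∀ u ∈ S, t * u - u * t ∈ S) (hnil : ∀ t ∈ S, IsNilpotent t) :
    ∃ n, ser S n = ⊥ := by
  classical
  haveI : Finite (AddMonoid.End W) := by
    refine Finite.of_injective (fun f : AddMonoid.End W => (f : W → W)) ?_
    intro f g h
    exact DFunLike.coe_injective h
  -- maximal nilpotent subset
  obtain ⟨T, hT, hmax⟩ : ∃ T : Set (AddMonoid.End W), (T ⊆ S ∧ ∃ n, ser T n = ⊥) ∧
      ∀ T' : Set (AddMonoid.End W), (T' ⊆ S ∧ ∃ n, ser T' n = ⊥) → T ⊆ T' → T' = T := by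
    have hf : (Set.univ : Set (Set (AddMonoid.End W))).Finite := Set.finite_univ
    have hne : ({T : Set (AddMonoid.End W) | T ⊆ S ∧ ∃ n, ser T n = ⊥}).Nonempty := by
      refine ⟨∅, Set.empty_subset _, 1, ?_⟩
      refine le_bot_iff.1 ((AddSubgroup.closure_le _).2 ?_)
      rintro w ⟨t, ht, _⟩
      exact absurd ht (Set.notMem_empty t)
    obtain ⟨T, hT⟩ := (Set.toFinite {T : Set (AddMonoid.End W) | T ⊆ S ∧ ∃ n, ser T n = ⊥}).exists_maximal hne
    refine ⟨T, hT.prop, fun T' hT' hle => ?_⟩
    exact le_antisymm (hT.le_of_ge hT' hle) hle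
  obtain ⟨hTS, n, hn⟩ := hT
  by_cases hST : S ⊆ T
  · refine ⟨n, ?_⟩
    rw [← Set.Subset.antisymm hTS hST]; exact hn
  exfalso
  obtain ⟨y0, hy0, hy0T⟩ := Set.not_subset.1 hST
  have hins : ∀ y ∈ S, (∀ t ∈ T, t * y - y * t ∈ T) → y ∈ T := by
    intro y hy hb
    obtain ⟨m, hm⟩ := ser_insert hn hb (hnil y hy)
    have := hmax (insert y T) ⟨Set.insert_subset hy hTS, m, hm⟩ (Set.subset_insert _ _)
    rw [← this]; exact Set.mem_insert _ _
  have hch : ∀ i, ∃ z, z ∈ S ∧ z ∉ T ∧ z ∈ mid T y0 i := by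
    intro i
    induction i with
    | zero => exact ⟨y0, hy0, hy0T, mid_zero T y0⟩
    | succ i ih =>
      obtain ⟨z, hz, hzT, hzm⟩ := ih
      have h1 : ¬ ∀ t ∈ T, t * z - z * t ∈ T := fun h => hzT (hins z hz h)
      push_neg at h1
      obtain ⟨t, ht, htz⟩ := h1
      exact ⟨t * z - z * t, hS t (hTS ht) z hz, htz, mid_step ht hzm⟩
  obtain ⟨z, hz, hzT, hzm⟩ := hch (2 * n)
  rw [mid_end hn y0] at hzm
  have hz0 : z = 0 := by simpa using hzm
  subst hz0
  refine hzT (hins 0 hz ?_)
  intro t ht
  simp only [mul_zero, zero_mul, sub_zero]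
  -- `0` has brackets `0`; use maximality again
  have h0 : ∃ m, ser (insert (0 : AddMonoid.End W) T) m = ⊥ := by
    have hle : ∀ k, ser (insert (0 : AddMonoid.End W) T) k ≤ ser T k := by
      intro k
      induction k with
      | zero => exact le_top
      | succ k ih =>
        refine (AddSubgroup.closure_le _).2 ?_
        rintro w ⟨s, hs, v, hv, rfl⟩
        rcases hs with rfl | hs
        · simp
        · exact ser_step hs (ih hv)
    refine ⟨n, le_bot_iff.1 ?_⟩
    rw [← hn]; exact hle n
  have := hmax (insert 0 T) ⟨Set.insert_subset hz hTS, h0⟩ (Set.subset_insert _ _)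
  rw [← this]; exact Set.mem_insert _ _

/-- a common kernel vector -/
theorem jac [Finite W] [Nontrivial W] (S : Set (AddMonoid.End W))
    (hS : ∀ t ∈ S, ∀ u ∈ S, t * u - u * t ∈ S) (hnil : ∀ t ∈ S, IsNilpotent t) :
    ∃ w : W, w ≠ 0 ∧ ∀ t ∈ S, t w = 0 := by
  classical
  obtain ⟨n, hn⟩ := jacobson S hS hnil
  have hex : ∃ n, ser S n = ⊥ := ⟨n, hn⟩
  set m := Nat.find hex with hm
  have hmb : ser S m = ⊥ := Nat.find_spec hex
  have hm0 : m ≠ 0 := by
    intro h
    rw [h, ser_zero] at hmb
    exact top_ne_bot hmb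
  obtain ⟨k, hk⟩ := Nat.exists_eq_succ_of_ne_zero hm0
  have hkn : ser S k ≠ ⊥ := Nat.find_min hex (by omega)
  obtain ⟨w1, hw1⟩ := AddSubgroup.ne_bot_iff_exists_ne_zero.1 hkn
  obtain ⟨w, hw, hw0⟩ : ∃ w, w ∈ ser S k ∧ w ≠ 0 := ⟨w1.1, w1.2, fun h => hw1 (Subtype.ext h)⟩
  refine ⟨w, hw0, fun t ht => ?_⟩
  have h1 := ser_step ht hw
  rw [← Nat.succ_eq_add_one, ← hk, hmb] at h1
  simpa using h1

end Pool.Agent.ZGO.H23
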