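import Pool.Agent.ZGO.StmtsB
import Pool.Agent.Helper23_ZGO.Jac

set_option autoImplicit false

namespace Pool.Agent.ZGO.H23

theorem jacS : JacStmt := by
  intro W _ _ _ S hS hn
  exact jac S hS hn

end Pool.Agent.ZGO.H23
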